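import Pool.Agent.H24.FD.P3

/-!
# MP_1f2761, k = 2, row GLZ: digits of the state are digits of real numbers
-/

set_option autoImplicit false

open Finset Pool.K2 Pool.FD

namespace Pool.Agent.H24.FD

namespace GLZ78

lemma II_mono (q : ℕ) {a b : ℕ} (h : a ≤ b) : II q a ≤ II q b :=
  Nat.clog_mono_right q (Nat.pow_le_pow_right (by norm_num) h)

lemma yy_pos (q J : ℕ) (hq : 2 ≤ q) : 0 < yy q J := by
  unfold yy
  have : (0 : ℝ) < q := by exact_mod_cast (by omega : 0 < q)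
  positivity

lemma yy_le (q J : ℕ) (hq : 2 ≤ q) : yy q J ≤ 1 := by
  unfold yy
  have h0 : (0 : ℝ) < q := by exact_mod_cast (by omega : 0 < q)
  rw [div_le_one (by positivity)]
  exact_mod_cast Nat.le_pow_clog (by omega : 1 < q) (2 ^ J)

lemma pow_II_lt (q J : ℕ) (hq : 2 ≤ q) : q ^ II q J < q * 2 ^ J := by
  rcases Nat.eq_zero_or_pos J with hJ | hJ
  · subst hJ
    simp [II]
    omega
  · have h1 : 1 < 2 ^ J := Nat.one_lt_two_pow (by omega)
    have h2 := Nat.pow_pred_clog_lt_self (by omega : 1 < q) h1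
    have h3 : 0 < Nat.clog q (2 ^ J) := Nat.clog_pos (by omega : 1 < q) h1
    have h4 : q ^ Nat.clog q (2 ^ J) = q * q ^ (Nat.clog q (2 ^ J)).pred := by
      rw [← pow_succ', Nat.pred_eq_sub_one]
      congr 1
      omega
    unfold II
    rw [h4]
    exact Nat.mul_lt_mul_of_pos_left h2 (by omega)

lemma lt_yy (q J : ℕ) (hq : 2 ≤ q) : 1 / (q : ℝ) < yy q J := by
  unfold yy
  have h0 : (0 : ℝ) < q := by exact_mod_cast (by omega : 0 < q)
  rw [div_lt_div_iff₀ h0 (by positivity), one_mul, mul_comm]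
  exact_mod_cast pow_II_lt q J hq

lemma key (q W J : ℕ) (hq : 2 ≤ q) (hW : W ≤ J) :
    (q : ℝ) ^ tt q W J * yy q J = 2 ^ W * yy q (J - W) := by
  have h0 : (q : ℝ) ≠ 0 := by
    have : (0 : ℝ) < q := by exact_mod_cast (by omega : 0 < q)
    exact this.ne'
  have h1 : II q (J - W) ≤ II q J := II_mono q (Nat.sub_le J W)
  have h2 : (q : ℝ) ^ II q J = (q : ℝ) ^ tt q W J * (q : ℝ) ^ II q (J - W) := by
    rw [← pow_add]
    congr 1
    unfold tt
    omega
  have h3 : (2 : ℝ) ^ J = 2 ^ W * 2 ^ (J - W) := by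
    rw [← pow_add]
    congr 1
    omega
  unfold yy
  rw [h2, h3]
  field_simp

end GLZ78

open GLZ78 in
/-- **GLZ**. -/
theorem glz : GLZStmt := by
  intro q W J hq hW ν n
  have h0 : (0 : ℝ) < q := by exact_mod_cast (by omega : 0 < q)
  have hk := key q W J hq hW
  have h1 : (q : ℝ) ^ tt q W J * (ν * yy q J) + yy q (J - W) * n =
      ((2 ^ W * ν + n : ℕ) : ℝ) * yy q (J - W) := by
    push_cast
    linear_combination (ν : ℝ) * hk
  refine ⟨h1, ?_, yy_pos q J hq, yy_le q J hq, lt_yy q J hq, ⟨?_, ?_⟩, ?_⟩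
  · rw [h1]
    unfold fl
    have h2 : ((2 ^ W * ν + n : ℕ) : ℝ) * yy q (J - W) =
        (((2 ^ W * ν + n) * 2 ^ (J - W) : ℕ) : ℝ) / ((q ^ II q (J - W) : ℕ) : ℝ) := by
      unfold yy
      push_cast
      ring
    have h3 : ⌊((2 ^ W * ν + n : ℕ) : ℝ) * yy q (J - W)⌋ =
        (((2 ^ W * ν + n) * 2 ^ (J - W) / q ^ II q (J - W) : ℕ) : ℤ) := by
      rw [h2, ← Int.natCast_floor_eq_floor (by positivity), Nat.floor_div_eq_div]
    rw [h3, ← Int.natCast_mod, Int.toNat_natCast]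
  · have h4 := lt_yy q J hq
    have h5 := yy_le q (J - W) hq
    have h6 : (1 : ℝ) < q * yy q J := by
      rw [div_lt_iff₀ h0] at h4
      linarith
    have h7 : (0 : ℝ) < (q : ℝ) ^ tt q W J := by positivity
    calc (q : ℝ) ^ tt q W J = (q : ℝ) ^ tt q W J * 1 := by ring
      _ ≤ (q : ℝ) ^ tt q W J * (q * yy q J) := mul_le_mul_of_nonneg_left h6.le h7.le
      _ = q * (2 ^ W * yy q (J - W)) := by rw [← hk]; ring
      _ ≤ q * (2 ^ W * 1) := by
          refine mul_le_mul_of_nonneg_left ?_ h0.le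
          exact mul_le_mul_of_nonneg_left h5 (by positivity)
      _ = q * 2 ^ W := by ring
  · have h4 := lt_yy q (J - W) hq
    have h5 := yy_le q J hq
    have h6 : (1 : ℝ) < q * yy q (J - W) := by
      rw [div_lt_iff₀ h0] at h4
      linarith
    have h7 : (0 : ℝ) < (2 : ℝ) ^ W := by positivity
    calc (2 : ℝ) ^ W = 2 ^ W * 1 := by ring
      _ ≤ 2 ^ W * (q * yy q (J - W)) := mul_le_mul_of_nonneg_left h6.le h7.le
      _ = q * ((q : ℝ) ^ tt q W J * yy q J) := by rw [hk]; ring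
      _ ≤ q * ((q : ℝ) ^ tt q W J * 1) := by
          refine mul_le_mul_of_nonneg_left ?_ h0.le
          exact mul_le_mul_of_nonneg_left h5 (by positivity)
      _ = q * q ^ tt q W J := by ring
  · intro W' hWW
    have h8 : II q (J - W) ≤ II q J := II_mono q (Nat.sub_le J W)
    have h9 : II q (J - W - W') ≤ II q (J - W) := II_mono q (Nat.sub_le _ _)
    unfold tt
    rw [← Nat.sub_sub]
    omega

end Pool.Agent.H24.FD
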