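import Pool.Agent.H24.FD.P1

/-!
# MP_1f2761, k = 2, row SPL: the typical/atypical split
-/

set_option autoImplicit false

open Finset

namespace Pool.Agent.H24.FD

namespace SPL78

variable {l k : ℕ}

lemma pF_nonneg (ε : ℝ) (s : Fin l → Fin 3) : 0 ≤ pF ε s := by
  unfold pF
  split
  · split
    · positivity
    · exact le_rfl
  · split
    · positivity
    · exact le_rfl

lemma PF_nonneg (ε : ℝ) (S : Fin k → Fin l → Fin 3) : 0 ≤ PF ε S :=
  Finset.prod_nonneg fun i _ => pF_nonneg ε (S i)

lemma atyp_nonneg (ε : ℝ) (l : ℕ) : 0 ≤ atyp ε l := by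
  classical
  unfold atyp
  refine Finset.sum_nonneg fun s _ => ?_
  split
  · exact le_rfl
  · exact pF_nonneg ε s

lemma vN_lt (hV : VALSStmt) (s : Fin l → Fin 3) : vN s < 2 ^ l := by
  have h := (hV l 1 (fun _ => s)).1
  have h1 : VN (fun _ : Fin 1 => s) = vN s := by
    simp [VN]
  rw [h1, mul_one] at h
  exact h

lemma mass_pF (hV : VALSStmt) {ε : ℝ} (hM : Marg ε l) : ∑ s : Fin l → Fin 3, pF ε s = 1 := by
  classical
  have h1 : ∑ η ∈ range (2 ^ l), ∑ s : Fin l → Fin 3, (if vN s = η then pF ε s else 0) = 1 := by
    have h2 : ∀ η ∈ range (2 ^ l), ∑ s : Fin l → Fin 3, (if vN s = η then pF ε s else 0) =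
        1 / 2 ^ l := by
      intro η hη
      have := hM η (mem_range.1 hη)
      rw [← this]
    rw [sum_congr rfl h2, sum_const, card_range, nsmul_eq_mul]
    push_cast
    have : (2 : ℝ) ^ l ≠ 0 := pow_ne_zero _ (by norm_num)
    field_simp
  rw [sum_comm] at h1
  rw [← h1]
  refine sum_congr rfl fun s _ => ?_
  rw [sum_ite_eq, if_pos]
  exact mem_range.2 (vN_lt hV s)

open Classical in
lemma sum_one (hV : VALSStmt) {ε : ℝ} (hM : Marg ε l) (i : Fin k) :
    ∑ S : Fin k → Fin l → Fin 3, (if typN ε (S i) then 0 else PF ε S) = atyp ε l := by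
  let h : Fin k → (Fin l → Fin 3) → ℝ := fun j s =>
    if j = i then (if typN ε s then 0 else pF ε s) else pF ε s
  have h1 : ∀ S : Fin k → Fin l → Fin 3,
      (if typN ε (S i) then 0 else PF ε S) = ∏ j, h j (S j) := by
    intro S
    by_cases hS : typN ε (S i)
    · rw [if_pos hS]
      symm
      refine prod_eq_zero (mem_univ i) ?_
      simp [h, hS]
    · rw [if_neg hS]
      unfold PF
      refine prod_congr rfl fun j _ => ?_
      by_cases hj : j = i
      · subst hj
        simp [h, hS]
      · simp [h, hj]
  rw [sum_congr rfl fun S _ => h1 S]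
  have h2 := Finset.prod_univ_sum (fun _ : Fin k => (univ : Finset (Fin l → Fin 3))) h
  rw [Fintype.piFinset_univ] at h2
  rw [← h2, Finset.prod_eq_single i]
  · simp only [h, if_true]
    unfold atyp
    refine sum_congr rfl fun s _ => ?_
    congr
  · intro j _ hj
    simp only [h, hj, if_false]
    exact mass_pF hV hM
  · intro hi
    exact absurd (mem_univ i) hi

open Classical in
lemma union_bound (hV : VALSStmt) {ε : ℝ} (hM : Marg ε l) :
    ∑ S : Fin k → Fin l → Fin 3, (if (∀ i, typN ε (S i)) then 0 else PF ε S) ≤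
      k * atyp ε l := by
  have h1 : ∀ S : Fin k → Fin l → Fin 3, (if (∀ i, typN ε (S i)) then 0 else PF ε S) ≤
      ∑ i : Fin k, (if typN ε (S i) then 0 else PF ε S) := by
    intro S
    have h0 := PF_nonneg ε S
    have h3 : ∀ i : Fin k, (0 : ℝ) ≤ (if typN ε (S i) then 0 else PF ε S) := by
      intro i
      split
      · exact le_rfl
      · exact h0
    by_cases hS : ∀ i, typN ε (S i)
    · rw [if_pos hS]
      exact sum_nonneg fun i _ => h3 i
    · rw [if_neg hS]
      push Not at hS
      obtain ⟨i, hi⟩ := hS
      have h4 : PF ε S = (if typN ε (S i) then 0 else PF ε S) := by rw [if_neg hi]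
      rw [h4]
      have h5 := Finset.single_le_sum (f := fun i : Fin k =>
        (if typN ε (S i) then 0 else PF ε S)) (fun j _ => h3 j) (mem_univ i)
      simpa [hi] using h5
  refine (sum_le_sum fun S _ => h1 S).trans (le_of_eq ?_)
  rw [sum_comm]
  have h2 : ∀ i ∈ (univ : Finset (Fin k)), ∑ S : Fin k → Fin l → Fin 3,
      (if typN ε (S i) then 0 else PF ε S) = atyp ε l := by
    intro i _
    rw [← sum_one hV hM i]
  rw [sum_congr rfl h2, sum_const, card_univ, Fintype.card_fin, nsmul_eq_mul]

variable {q : ℕ} {ε : ℝ} {om : ℕ → ℕ × ℕ → ℝ}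

theorem EQ_succ (J n : ℕ) (f : ℕ × ℕ → ℝ) (x : ℕ × ℕ) :
    EQ q l k ε om J (n + 1) f x = ∑ S : Fin k → Fin l → Fin 3,
      piQ q l k ε om J x S * EQ q l k ε om (J - l * k) n f (app x S) := rfl

open Classical in
theorem ET_succ (J n : ℕ) (f : ℕ × ℕ → ℝ) (x : ℕ × ℕ) :
    ET q l k ε om J (n + 1) f x = ∑ S : Fin k → Fin l → Fin 3,
      (if (∀ i, typN ε (S i)) then
        piQ q l k ε om J x S * ET q l k ε om (J - l * k) n f (app x S) else 0) := rfl

end SPL78

open SPL78 in
/-- **SPL**. -/
theorem spl (hV : VALSStmt) (hN : PINStmt) (hE : EQBStmt) : SPLStmt := by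
  classical
  intro q l k ε om hM hom
  obtain ⟨hc, hmono, -, -, -⟩ := hE q l k ε om hM hom
  have hone : ∀ (J : ℕ) (x : ℕ × ℕ), ∑ S : Fin k → Fin l → Fin 3, piQ q l k ε om J x S = 1 := by
    intro J x
    have h := hc 1 J 1 x
    rw [EQ_succ] at h
    simpa [EQ] using h
  have hETmono : ∀ (n J : ℕ) (f g : ℕ × ℕ → ℝ) (x : ℕ × ℕ), (∀ y, f y ≤ g y) →
      ET q l k ε om J n f x ≤ ET q l k ε om J n g x := by
    intro n
    induction n with
    | zero => intro J f g x h; exact h x
    | succ n ih =>
      intro J f g x h
      rw [ET_succ, ET_succ]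
      refine sum_le_sum fun S _ => ?_
      split
      · exact mul_le_mul_of_nonneg_left (ih _ f g _ h) (hN q l k ε om hom J x S)
      · exact le_rfl
  refine ⟨?_, ?_, hETmono, ?_⟩
  · intro n
    induction n with
    | zero =>
      intro J f x _ _
      refine ⟨le_rfl, ?_⟩
      have : ET q l k ε om J 0 f x = EQ q l k ε om J 0 f x := rfl
      rw [this]
      simp
    | succ n ih =>
      intro J f x h0 h1
      have hA : ∀ y, 0 ≤ EQ q l k ε om (J - l * k) n f y := by
        intro y
        have h2 := hmono n (J - l * k) (fun _ => 0) f y h0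
        rw [hc] at h2
        exact h2
      have hB : ∀ y, EQ q l k ε om (J - l * k) n f y ≤ 1 := by
        intro y
        have h2 := hmono n (J - l * k) f (fun _ => 1) y h1
        rw [hc] at h2
        exact h2
      constructor
      · rw [ET_succ, EQ_succ]
        refine sum_le_sum fun S _ => ?_
        split
        · exact mul_le_mul_of_nonneg_left (ih _ f _ h0 h1).1 (hN q l k ε om hom J x S)
        · exact mul_nonneg (hN q l k ε om hom J x S) (hA _)
      · have h3 : ∀ S : Fin k → Fin l → Fin 3,
            piQ q l k ε om J x S * EQ q l k ε om (J - l * k) n f (app x S) ≤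
            (if (∀ i, typN ε (S i)) then
              piQ q l k ε om J x S * ET q l k ε om (J - l * k) n f (app x S) else 0) +
            piQ q l k ε om J x S * (n * k * atyp ε l) +
            (if (∀ i, typN ε (S i)) then 0 else PF ε S) := by
          intro S
          have h4 := hN q l k ε om hom J x S
          have h5 : 0 ≤ (n : ℝ) * k * atyp ε l :=
            mul_nonneg (by positivity) (atyp_nonneg ε l)
          by_cases hS : ∀ i, typN ε (S i)
          · rw [if_pos hS, if_pos hS, add_zero, ← mul_add]
            exact mul_le_mul_of_nonneg_left (ih _ f _ h0 h1).2 h4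
          · rw [if_neg hS, if_neg hS, zero_add]
            have h6 : piQ q l k ε om J x S = PF ε S := by
              unfold piQ
              rw [if_neg]
              intro h
              exact hS h.1
            have h7 : piQ q l k ε om J x S * EQ q l k ε om (J - l * k) n f (app x S) ≤
                PF ε S := by
              rw [h6]
              exact mul_le_of_le_one_right (PF_nonneg ε S) (hB _)
            have h8 : 0 ≤ piQ q l k ε om J x S * (n * k * atyp ε l) := mul_nonneg h4 h5
            linarith
        rw [EQ_succ, ET_succ]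
        refine (sum_le_sum fun S _ => h3 S).trans ?_
        rw [sum_add_distrib, sum_add_distrib, ← sum_mul, hone, one_mul]
        have h9 := union_bound (k := k) hV hM
        push_cast
        linarith
  · intro m
    induction m with
    | zero =>
      intro n J f x
      have : ET q l k ε om J 0 (fun y => ET q l k ε om (J - l * k * 0) n f y) x =
        ET q l k ε om (J - l * k * 0) n f x := rfl
      rw [this, Nat.zero_add, Nat.mul_zero, Nat.sub_zero]
    | succ m ih =>
      intro n J f x
      rw [show m + 1 + n = (m + n) + 1 by omega, ET_succ, ET_succ]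
      refine sum_congr rfl fun S _ => ?_
      rw [ih]
      have h1 : J - l * k - l * k * m = J - l * k * (m + 1) := by
        rw [Nat.sub_sub, Nat.mul_succ, Nat.add_comm]
      rw [h1]
  · intro n
    induction n with
    | zero => intro J f g c x; rfl
    | succ n ih =>
      intro J f g c x
      rw [ET_succ, ET_succ, ET_succ, mul_sum, ← sum_add_distrib]
      refine sum_congr rfl fun S _ => ?_
      split
      · rw [ih]
        ring
      · ring

end Pool.Agent.H24.FD
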