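import Pool.Agent.H24.FD.P1

/-!
# MP_1f2761, k = 2, row ETR: `ET ≤ RT`
-/

set_option autoImplicit false

open Finset

namespace Pool.Agent.H24.FD

namespace ETR78

variable {l k : ℕ}

lemma pT_nonneg (ε : ℝ) (s : Fin l → Fin 3) : 0 ≤ pT ε s := by
  unfold pT
  split
  · positivity
  · exact le_rfl

lemma pF_nonneg (ε : ℝ) (s : Fin l → Fin 3) : 0 ≤ pF ε s := by
  unfold pF
  split
  · split
    · positivity
    · exact le_rfl
  · split
    · positivity
    · exact le_rfl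

lemma PT_nonneg (ε : ℝ) (S : Fin k → Fin l → Fin 3) : 0 ≤ PT ε S :=
  Finset.prod_nonneg fun i _ => pT_nonneg ε (S i)

lemma PF_nonneg (ε : ℝ) (S : Fin k → Fin l → Fin 3) : 0 ≤ PF ε S :=
  Finset.prod_nonneg fun i _ => pF_nonneg ε (S i)

lemma PF_eq (ε : ℝ) (S : Fin k → Fin l → Fin 3) (h : ∀ i, typN ε (S i)) : PF ε S = PT ε S := by
  refine Finset.prod_congr rfl fun i _ => ?_
  unfold pF pT
  rw [if_pos (h i)]

variable (q : ℕ) (ε : ℝ) (om : ℕ → ℕ × ℕ → ℝ)

lemma piQ_nonneg (hom : ∀ J z, 0 ≤ om J z) (J : ℕ) (x : ℕ × ℕ) (S : Fin k → Fin l → Fin 3) :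
    0 ≤ piQ q l k ε om J x S := by
  unfold piQ
  split
  · rename_i h
    have h1 : (0 : ℝ) ≤ ZZ q l k ε om J x S := le_trans (by norm_num) h.2
    exact div_nonneg (mul_nonneg (PF_nonneg ε S) (hom _ _)) h1
  · exact PF_nonneg ε S

lemma piQ_le (hom : ∀ J z, 0 ≤ om J z) (J : ℕ) (x : ℕ × ℕ) (S : Fin k → Fin l → Fin 3)
    (hS : ∀ i, typN ε (S i)) :
    piQ q l k ε om J x S ≤ PT ε S * (1 + 2 * om J (zz q (l * k) J (app x S))) := by
  have h0 : 0 ≤ PT ε S := PT_nonneg ε S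
  have h1 : 0 ≤ om J (zz q (l * k) J (app x S)) := hom _ _
  have h2 : 0 ≤ PT ε S * om J (zz q (l * k) J (app x S)) := mul_nonneg h0 h1
  unfold piQ
  rw [PF_eq ε S hS]
  split
  · rename_i h
    have h3 : (1 : ℝ) / 2 ≤ ZZ q l k ε om J x S := h.2
    have h4 : (0 : ℝ) < ZZ q l k ε om J x S := lt_of_lt_of_le (by norm_num) h3
    rw [div_le_iff₀ h4]
    nlinarith [mul_nonneg h2 (by linarith : (0 : ℝ) ≤ ZZ q l k ε om J x S - 1 / 2),
      mul_nonneg h0 h4.le]
  · nlinarith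

lemma ET_nonneg (hom : ∀ J z, 0 ≤ om J z) (n : ℕ) : ∀ (J : ℕ) (f : ℕ × ℕ → ℝ) (x : ℕ × ℕ),
    (∀ y, 0 ≤ f y) → 0 ≤ ET q l k ε om J n f x := by
  induction n with
  | zero => intro J f x hf; exact hf x
  | succ n ih =>
    intro J f x hf
    simp only [ET]
    refine Finset.sum_nonneg fun S _ => ?_
    split
    · exact mul_nonneg (piQ_nonneg q ε om hom J x S) (ih _ f _ hf)
    · exact le_rfl

end ETR78

open ETR78 in
/-- **ETR**. -/
theorem etr : ETRStmt := by
  intro q l k ε om hom n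
  induction n with
  | zero => intro J f x _; exact le_rfl
  | succ n ih =>
    intro J f x hf
    simp only [ET, RT, EP]
    refine Finset.sum_le_sum fun S _ => ?_
    have h1 := ET_nonneg (l := l) (k := k) q ε om hom n (J - l * k) f (app x S) hf
    have h2 := ih (J - l * k) f (app x S) hf
    have h3 : 0 ≤ om J (zz q (l * k) J (app x S)) := hom _ _
    have h4 := PT_nonneg ε S
    have h5 : 0 ≤ PT ε S * (1 + 2 * om J (zz q (l * k) J (app x S))) :=
      mul_nonneg h4 (by linarith)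
    rw [← mul_assoc]
    split
    · rename_i hS
      exact mul_le_mul (piQ_le q ε om hom J x S hS) h2 h1 h5
    · exact mul_nonneg h5 (h1.trans h2)

end Pool.Agent.H24.FD
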