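import Pool.Agent.H24.FD.P2

/-!
# MP_1f2761, k = 2, row IND: the induction over the blocks of a window
-/

set_option autoImplicit false

open Finset

namespace Pool.Agent.H24.FD

open Classical in
/-- **IND**. -/
theorem ind (hE : EQBStmt) (hS : SPLStmt) : INDStmt := by
  intro q l k ε om hM hom Jt NB b₀ Nι s Exc E bb hN hs hcov hback
  obtain ⟨hc, -, -, -, -⟩ := hE q l k ε om hM hom
  obtain ⟨h1, htow, hmono, hlin⟩ := hS q l k ε om hM hom
  have hone : ∀ (n J : ℕ) (f : ℕ × ℕ → ℝ) (x : ℕ × ℕ), (∀ y, 0 ≤ f y) → (∀ y, f y ≤ 1) →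
      ET q l k ε om J n f x ≤ 1 := by
    intro n J f x h0 h2
    have h3 := hmono n J f (fun _ => 1) x h2
    have h4 := (h1 n J (fun _ => 1) x (fun _ => zero_le_one) (fun _ => le_rfl)).1
    rw [hc] at h4
    exact h3.trans h4
  have hconst : ∀ (n J : ℕ) (x : ℕ × ℕ), ET q l k ε om J n (fun _ => s) x ≤ s := by
    intro n J x
    have h5 := hlin n J (fun _ => 1) (fun _ => 0) s x
    have h6 := hlin n J (fun _ => 0) (fun _ => 0) 1 x
    simp only [mul_zero, add_zero, one_mul, mul_one] at h5 h6
    have h7 : ET q l k ε om J n (fun _ => 0) x = 0 := by linarith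
    rw [h5, h7, add_zero]
    have h8 := hone n J (fun _ => 1) x (fun _ => zero_le_one) (fun _ => le_rfl)
    nlinarith
  have hzero : ∀ (n J : ℕ) (x : ℕ × ℕ), ET q l k ε om J n (fun _ => 0) x = 0 := by
    intro n J x
    have h6 := hlin n J (fun _ => 0) (fun _ => 0) 1 x
    simp only [mul_zero, add_zero, one_mul] at h6
    linarith
  have hsum : ∀ (N n J : ℕ) (f : ℕ → ℕ × ℕ → ℝ) (x : ℕ × ℕ),
      ET q l k ε om J n (fun y => ∑ i ∈ range N, f i y) x =
        ∑ i ∈ range N, ET q l k ε om J n (f i) x := by
    intro N n J f x
    induction N with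
    | zero => simp only [range_zero, sum_empty]; exact hzero n J x
    | succ N ih =>
      have h9 := hlin n J (f N) (fun y => ∑ i ∈ range N, f i y) 1 x
      simp only [one_mul] at h9
      have h10 : (fun y => ∑ i ∈ range (N + 1), f i y) =
          fun y => f N y + ∑ i ∈ range N, f i y := by
        funext y
        rw [sum_range_succ]
        exact add_comm _ _
      rw [h10, h9, sum_range_succ, ← ih]
      exact add_comm _ _
  have hN1 : (1 : ℝ) ≤ Nι := by exact_mod_cast hN
  have hpow : ∀ n : ℕ, (1 : ℝ) ≤ (2 * (Nι : ℝ)) ^ n := fun n => one_le_pow₀ (by linarith)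
  intro b
  induction b using Nat.strong_induction_on with
  | _ b ih =>
    intro hb hbN x
    have hA : ET q l k ε om Jt b (fun y => if Exc b y then 1 else 0) x ≤
        ∑ i ∈ range Nι, ET q l k ε om Jt b (fun y => if E b i y then 1 else 0) x := by
      rw [← hsum]
      refine hmono _ _ _ _ _ fun y => ?_
      have h0 : ∀ i ∈ range Nι, (0 : ℝ) ≤ (if E b i y then 1 else 0) := by
        intro i _
        split
        · exact zero_le_one
        · exact le_rfl
      by_cases hy : Exc b y
      · obtain ⟨i, hi, hEi⟩ := hcov b hb hbN y hy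
        rw [if_pos hy]
        have h2 := Finset.single_le_sum (f := fun i => (if E b i y then (1 : ℝ) else 0)) h0
          (mem_range.2 hi)
        simpa [hEi] using h2
      · rw [if_neg hy]
        exact sum_nonneg h0
    have hB : ∀ i ∈ range Nι, ET q l k ε om Jt b (fun y => if E b i y then 1 else 0) x ≤
        2 * ((2 * (Nι : ℝ)) ^ b * s) := by
      intro i hi
      obtain ⟨hlt, hx⟩ := hback b hb hbN i (mem_range.1 hi)
      have h3 : ET q l k ε om Jt b (fun y => if E b i y then 1 else 0) x =
          ET q l k ε om Jt (bb b i + (b - bb b i)) (fun y => if E b i y then 1 else 0) x := by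
        rw [show bb b i + (b - bb b i) = b by omega]
      rw [h3, htow]
      have hps : s ≤ (2 * (Nι : ℝ)) ^ b * s := by
        have := mul_le_mul_of_nonneg_right (hpow b) hs
        linarith
      by_cases hbb : b₀ ≤ bb b i
      · have h4 : ∀ y, ET q l k ε om (Jt - l * k * bb b i) (b - bb b i)
            (fun y => if E b i y then 1 else 0) y ≤
            1 * (if Exc (bb b i) y then (1 : ℝ) else 0) + s := by
          intro y
          by_cases hy : Exc (bb b i) y
          · rw [if_pos hy]
            have h5 := hone (b - bb b i) (Jt - l * k * bb b i)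
              (fun y => if E b i y then 1 else 0) y
              (fun y => by split <;> norm_num) (fun y => by split <;> norm_num)
            linarith
          · rw [if_neg hy]
            have h5 := hx y (fun _ => hy)
            linarith
        have h6 := hmono (bb b i) Jt _ _ x h4
        rw [hlin] at h6
        have h7 := ih (bb b i) hlt hbb (hlt.trans hbN) x
        have h8 := hconst (bb b i) Jt x
        have h9 : (2 * (Nι : ℝ)) ^ (bb b i + 1) * s ≤ (2 * (Nι : ℝ)) ^ b * s := by
          refine mul_le_mul_of_nonneg_right ?_ hs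
          exact pow_le_pow_right₀ (by linarith) hlt
        linarith
      · have h4 : ∀ y, ET q l k ε om (Jt - l * k * bb b i) (b - bb b i)
            (fun y => if E b i y then 1 else 0) y ≤ s :=
          fun y => hx y (fun h => absurd h hbb)
        have h6 := hmono (bb b i) Jt _ (fun _ => s) x h4
        have h8 := hconst (bb b i) Jt x
        have h9 : 0 ≤ (2 * (Nι : ℝ)) ^ b * s := hs.trans hps
        linarith
    refine hA.trans ((sum_le_sum hB).trans (le_of_eq ?_))
    rw [sum_const, card_range, nsmul_eq_mul, pow_succ]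
    ring

end Pool.Agent.H24.FD
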