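import Pool.Agent.H24.FD.P4
import Pool.Agent.H50.FD.PIM

/-!
# MP_1f2761, k = 2, row ONP (8.3): one structured block, base `p`
-/

set_option autoImplicit false

open Finset Pool.K2 Pool.FD

namespace Pool.Agent.H24.FD

namespace ONP78

variable {l k : ℕ}

lemma pT_nonneg (ε : ℝ) (s : Fin l → Fin 3) : 0 ≤ pT ε s := by
  unfold pT
  split
  · positivity
  · exact le_rfl

lemma pF_nonneg (ε : ℝ) (s : Fin l → Fin 3) : 0 ≤ pF ε s := by
  unfold pF
  split
  · split
    · positivity
    · exact le_rfl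
  · split
    · positivity
    · exact le_rfl

lemma PT_nonneg (ε : ℝ) (S : Fin k → Fin l → Fin 3) : 0 ≤ PT ε S :=
  Finset.prod_nonneg fun i _ => pT_nonneg ε (S i)

lemma PF_nonneg (ε : ℝ) (S : Fin k → Fin l → Fin 3) : 0 ≤ PF ε S :=
  Finset.prod_nonneg fun i _ => pF_nonneg ε (S i)

lemma PF_eq (ε : ℝ) (S : Fin k → Fin l → Fin 3) (h : ∀ i, typN ε (S i)) : PF ε S = PT ε S := by
  refine Finset.prod_congr rfl fun i _ => ?_
  unfold pF pT
  rw [if_pos (h i)]

lemma PT_eq_zero (ε : ℝ) (S : Fin k → Fin l → Fin 3) (h : ¬ ∀ i, typN ε (S i)) :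
    PT ε S = 0 := by
  push Not at h
  obtain ⟨i, hi⟩ := h
  refine Finset.prod_eq_zero (Finset.mem_univ i) ?_
  unfold pT
  rw [if_neg]
  exact fun h => hi h.1

open Classical in
/-- the weight `pw` is the image of the typical free law -/
lemma sum_pw (hV : VALSStmt) (F : ℕ → ℕ → ℂ) :
    ∑ n ∈ range (2 ^ (l * k)), ∑ a ∈ range (2 ^ (l * k)), (pw l k n a : ℂ) * F n a =
      ∑ S : Fin k → Fin l → Fin 3, (PT eb S : ℂ) * F (VN S) (VA S) := by
  have h1 : ∀ n a : ℕ, (pw l k n a : ℂ) * F n a =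
      ∑ S : Fin k → Fin l → Fin 3, (if VN S = n ∧ VA S = a then (PT eb S : ℂ) * F n a else 0) := by
    intro n a
    unfold pw
    rw [Complex.ofReal_sum, Finset.sum_mul]
    refine Finset.sum_congr rfl fun S _ => ?_
    split
    · rfl
    · simp
  simp only [h1]
  have h2 : ∀ n ∈ range (2 ^ (l * k)), ∑ a ∈ range (2 ^ (l * k)),
      ∑ S : Fin k → Fin l → Fin 3, (if VN S = n ∧ VA S = a then (PT eb S : ℂ) * F n a else 0) =
      ∑ S : Fin k → Fin l → Fin 3, (if VN S = n then (PT eb S : ℂ) * F n (VA S) else 0) := by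
    intro n _
    rw [Finset.sum_comm]
    refine Finset.sum_congr rfl fun S _ => ?_
    by_cases hn : VN S = n
    · rw [if_pos hn]
      have h3 : ∀ a ∈ range (2 ^ (l * k)),
          (if VN S = n ∧ VA S = a then (PT eb S : ℂ) * F n a else 0) =
          (if VA S = a then (PT eb S : ℂ) * F n (VA S) else 0) := by
        intro a _
        by_cases ha : VA S = a
        · rw [if_pos ⟨hn, ha⟩, if_pos ha, ha]
        · rw [if_neg (fun h => ha h.2), if_neg ha]
      rw [Finset.sum_congr rfl h3, Finset.sum_ite_eq, if_pos]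
      exact Finset.mem_range.2 (hV l k S).2.1
    · rw [if_neg hn]
      refine Finset.sum_eq_zero fun a _ => ?_
      rw [if_neg (fun h => hn h.1)]
  rw [Finset.sum_congr rfl h2, Finset.sum_comm]
  refine Finset.sum_congr rfl fun S _ => ?_
  rw [Finset.sum_ite_eq, if_pos]
  exact Finset.mem_range.2 (hV l k S).1

lemma ex_add (x y : ℝ) : ex (x + y) = ex x * ex y := by
  unfold ex
  rw [← Complex.exp_add]
  congr 1
  push_cast
  ring

lemma norm_ex (x : ℝ) : ‖ex x‖ = 1 := by
  unfold ex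
  have : (2 * Real.pi * x * Complex.I : ℂ) = ((2 * Real.pi * x : ℝ) : ℂ) * Complex.I := by
    push_cast
    ring
  rw [this, Complex.norm_exp_ofReal_mul_I]

lemma ex_zero : ex 0 = 1 := by
  unfold ex
  simp

lemma omK_nonneg {q m g t₁ : ℕ} {κ : ℝ} {wm : ℕ → ℕ → ℝ} (hq : 2 ≤ q) (h : MK q m κ wm) (t : ℕ)
    (z : ℕ × ℕ) : 0 ≤ omK q m g t₁ wm t z := by
  unfold omK
  refine mul_nonneg (Finset.prod_nonneg fun i _ => h.nonneg _ _) ?_
  unfold gd
  split
  · exact le_rfl
  · have h0 : (1 : ℝ) ≤ (q : ℝ) ^ g := one_le_pow₀ (by exact_mod_cast (by omega : 1 ≤ q))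
    have h1 : 1 / (q : ℝ) ^ g ≤ 1 := by
      rw [div_le_one (by linarith)]
      exact h0
    exact div_nonneg zero_le_one (by linarith)

/-- the state after the first `u` macro-digits of a block -/
def zu (l k u : ℕ) (x : ℕ × ℕ) (S : Fin k → Fin l → Fin 3) : ℕ × ℕ :=
  (2 ^ (l * u) * x.1 + VN S / 2 ^ (l * k - l * u), 2 ^ (l * u) * x.2 + VA S / 2 ^ (l * k - l * u))

lemma sure_of (hSUR : SURStmt) (hSPR : SPRStmt) (p u b J : ℕ) (x : ℕ × ℕ)
    (S : Fin k → Fin l → Fin 3) (c : ℝ) (hp : 2 ≤ p) (hu : u ≤ k) (hJ : l * k ≤ J)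
    (hc : yy p (J - l * u) / (p : ℝ) ^ b ≤ c)
    (hns : ¬ Sure p (II p (J - l * u) + b) (J - l * k) (app x S)) :
    ¬ (Int.fract ((zu l k u x S).1 * (yy p (J - l * u) / (p : ℝ) ^ b)) + c <
        Int.fract ((zu l k u x S).2 * (yy p (J - l * u) / (p : ℝ) ^ b)) ∧
      Int.fract ((zu l k u x S).2 * (yy p (J - l * u) / (p : ℝ) ^ b)) < 1 - c) := by
  rintro ⟨h1, h2⟩
  apply hns
  have e : yy p (J - l * u) / (p : ℝ) ^ b =
      (2 : ℝ) ^ (J - l * u) / (p : ℝ) ^ (II p (J - l * u) + b) := by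
    unfold yy
    rw [pow_add, div_div]
  rw [e] at h1 h2 hc
  have h3 : Sure p (II p (J - l * u) + b) (J - l * u) (zu l k u x S) :=
    hSUR p (II p (J - l * u) + b) (J - l * u) (zu l k u x S) c (by omega) hc h1 h2
  have hlu : l * u ≤ l * k := Nat.mul_le_mul_left l hu
  have hJ' : J - l * u = (J - l * k) + (l * k - l * u) := by omega
  rw [hJ'] at h3
  have hpos : 0 < 2 ^ (l * k - l * u) := by positivity
  rw [← hJ'] at h3
  have h3' : Sure p (II p (J - l * u) + b) ((J - l * k) + (l * k - l * u)) (zu l k u x S) := by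
    rw [← hJ']
    exact h3
  have h4 := hSPR p (II p (J - l * u) + b) (J - l * k) (l * k - l * u) (zu l k u x S)
    (VN S % 2 ^ (l * k - l * u)) (VA S % 2 ^ (l * k - l * u)) (by omega)
    (Nat.mod_lt _ hpos) (Nat.mod_lt _ hpos) h3'
  have e2 : ∀ a v : ℕ, 2 ^ (l * k - l * u) * (2 ^ (l * u) * a + v / 2 ^ (l * k - l * u)) +
      v % 2 ^ (l * k - l * u) = 2 ^ (l * k) * a + v := by
    intro a v
    have e3 : 2 ^ (l * k) = 2 ^ (l * k - l * u) * 2 ^ (l * u) := by
      rw [← pow_add]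
      congr 1
      omega
    have e4 := Nat.div_add_mod v (2 ^ (l * k - l * u))
    rw [e3]
    calc 2 ^ (l * k - l * u) * (2 ^ (l * u) * a + v / 2 ^ (l * k - l * u)) +
        v % 2 ^ (l * k - l * u) = 2 ^ (l * k - l * u) * 2 ^ (l * u) * a +
        (2 ^ (l * k - l * u) * (v / 2 ^ (l * k - l * u)) + v % 2 ^ (l * k - l * u)) := by ring
      _ = _ := by rw [e4]
  have e5 : (2 ^ (l * k - l * u) * (zu l k u x S).1 + VN S % 2 ^ (l * k - l * u),
      2 ^ (l * k - l * u) * (zu l k u x S).2 + VA S % 2 ^ (l * k - l * u)) = app x S := by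
    unfold zu app
    simp only
    rw [e2, e2]
  rw [e5] at h4
  exact h4

end ONP78

open ONP78 PimAux Classical in
/-- **ONP**. -/
theorem onp (hV : VALSStmt) (hGLZ : GLZStmt) (hSUR : SURStmt) (hSPR : SPRStmt) (hZZF : ZZFStmt)
    (hLOR : LORStmt) : ONPStmt := by
  intro q m g t₁ l k G Jt J p u b K₀ wm c Mj hPar hJ hJt hp hu hc hK₀ hMj hM0i hM0r x
  have hq := hPar.hq
  set om := omW q m g t₁ wm (l * k) G Jt with hom
  set s₁ : ℝ := x.1 * yy q J with hs₁
  set s₂ : ℝ := x.2 * yy q J with hs₂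
  set θ : ℝ := yy p (J - l * u) / (p : ℝ) ^ b with hθ
  set Z : ℕ → ℝ := fun e => Zt q m g t₁ l k wm J e s₁ s₂ with hZ
  set O : (Fin k → Fin l → Fin 3) → ℝ := fun S => om J (zz q (l * k) J (app x S)) with hOdef
  set A : ℕ → ℝ := fun e => ∑ S : Fin k → Fin l → Fin 3,
    (if VN S = e then PF eb S * O S else 0) with hA
  have hOv : ∀ S : Fin k → Fin l → Fin 3, O S = omv q m g t₁ wm (tt q (l * k) J)
      (fl (q ^ tt q (l * k) J) (((q ^ tt q (l * k) J : ℕ) : ℝ) * s₁ + yy q (J - l * k) * VN S))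
      (fl (q ^ tt q (l * k) J) (((q ^ tt q (l * k) J : ℕ) : ℝ) * s₂ + yy q (J - l * k) * VA S)) := by
    intro S
    have g1 := (hGLZ q (l * k) J hq hJ x.1 (VN S)).2.1
    have g2 := (hGLZ q (l * k) J hq hJ x.2 (VA S)).2.1
    simp only [hOdef, hom]
    unfold omW
    rw [if_neg (by omega)]
    unfold omv zz app
    simp only
    rw [g1, g2]
    push_cast
    rfl
  have hO0 : ∀ S, 0 ≤ O S := by
    intro S
    rw [hOv S]
    exact omK_nonneg hq hPar.hmk _ _
  have hZA : ∀ S₀ : Fin k → Fin l → Fin 3, Z (VN S₀) = 2 ^ (l * k) * A (VN S₀) := by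
    intro S₀
    have := hZZF q m g t₁ l k G Jt J wm hq hJ hJt x S₀
    simp only [hZ]
    rw [← this]
    rfl
  have hA0 : ∀ e, 0 ≤ A e := by
    intro e
    refine Finset.sum_nonneg fun S _ => ?_
    split
    · exact mul_nonneg (PF_nonneg _ _) (hO0 _)
    · exact le_rfl
  have hAe : ∀ e, (¬ ∃ S₀ : Fin k → Fin l → Fin 3, VN S₀ = e) → A e = 0 := by
    intro e he
    refine Finset.sum_eq_zero fun S _ => ?_
    rw [if_neg]
    exact fun h => he ⟨S, h⟩
  have h2p : (0 : ℝ) < 2 ^ (l * k) := by positivity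
  set Dd : ℝ := Di q m g t₁ l k wm J s₁ s₂ with hDd
  have hDi : Dd = ∑ e ∈ HH l k, |Z e - 1| / 2 ^ (l * k) := by
    rw [hDd]
    unfold Di
    rw [Finset.sum_div]
  have hHH : ∀ S : Fin k → Fin l → Fin 3, (∀ i, typN eb (S i)) → VN S ∈ HH l k := by
    intro S hS
    unfold HH
    rw [Finset.mem_filter]
    refine ⟨Finset.mem_range.2 (hV l k S).1, fun S' hS' => ?_⟩
    exact (all_typN_congr eb S S' hS'.symm).1 hS
  -- sums over typical strings
  have hgrp : ∀ F : ℕ → ℝ, ∑ S : Fin k → Fin l → Fin 3,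
      (if (∀ i, typN eb (S i)) then PF eb S * O S * F (VN S) else 0) =
      ∑ e ∈ HH l k, A e * F e := by
    intro F
    have h1 : ∀ e ∈ HH l k, A e * F e = ∑ S : Fin k → Fin l → Fin 3,
        (if VN S = e then PF eb S * O S * F e else 0) := by
      intro e _
      simp only [hA]
      rw [Finset.sum_mul]
      refine Finset.sum_congr rfl fun S _ => ?_
      split
      · rfl
      · rw [zero_mul]
    rw [Finset.sum_congr rfl h1, Finset.sum_comm]
    refine Finset.sum_congr rfl fun S _ => ?_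
    have h2 : ∀ e ∈ HH l k, (if VN S = e then PF eb S * O S * F e else 0) =
        (if VN S = e then PF eb S * O S * F (VN S) else 0) := by
      intro e _
      by_cases h : VN S = e
      · rw [if_pos h, if_pos h, h]
      · rw [if_neg h, if_neg h]
    rw [Finset.sum_congr rfl h2, Finset.sum_ite_eq]
    by_cases hS : ∀ i, typN eb (S i)
    · rw [if_pos hS, if_pos (hHH S hS)]
    · rw [if_neg hS, if_neg]
      intro h
      unfold HH at h
      rw [Finset.mem_filter] at h
      exact hS (h.2 S rfl)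
  have hmass : ∑ S : Fin k → Fin l → Fin 3, PT eb S * O S ≤ 1 + Dd := by
    have h1 : ∑ S : Fin k → Fin l → Fin 3, PT eb S * O S =
        ∑ S : Fin k → Fin l → Fin 3,
          (if (∀ i, typN eb (S i)) then PF eb S * O S * (fun _ : ℕ => (1 : ℝ)) (VN S) else 0) := by
      refine Finset.sum_congr rfl fun S _ => ?_
      by_cases hS : ∀ i, typN eb (S i)
      · rw [if_pos hS, PF_eq eb S hS, mul_one]
      · rw [if_neg hS, PT_eq_zero eb S hS, zero_mul]
    have h1' : ∑ S : Fin k → Fin l → Fin 3, PT eb S * O S = ∑ e ∈ HH l k, A e * 1 :=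
      h1.trans (hgrp (fun _ => (1 : ℝ)))
    rw [h1']
    have h2 : ∀ e ∈ HH l k, A e * 1 ≤
        1 / 2 ^ (l * k) + |Z e - 1| / 2 ^ (l * k) := by
      intro e _
      rw [mul_one, ← add_div, le_div_iff₀ h2p]
      by_cases he : ∃ S₀ : Fin k → Fin l → Fin 3, VN S₀ = e
      · obtain ⟨S₀, hS₀⟩ := he
        have h3 := hZA S₀
        rw [hS₀] at h3
        have h4 := le_abs_self (Z e - 1)
        linarith
      · rw [hAe e he, zero_mul]
        positivity
    refine (Finset.sum_le_sum h2).trans ?_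
    rw [Finset.sum_add_distrib, ← hDi, Finset.sum_const, nsmul_eq_mul, mul_one_div]
    have h5 : ((HH l k).card : ℝ) ≤ 2 ^ (l * k) := by
      have h6 : (HH l k).card ≤ (range (2 ^ (l * k))).card := by
        unfold HH
        exact Finset.card_filter_le _ _
      rw [Finset.card_range] at h6
      exact_mod_cast h6
    have h7 : ((HH l k).card : ℝ) / 2 ^ (l * k) ≤ 1 := by
      rw [div_le_one h2p]
      exact h5
    linarith
  -- the majorant
  set TT : (Fin k → Fin l → Fin 3) → ℝ := fun S =>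
    (tp K₀ Mj ((zu l k u x S).1 * θ) ((zu l k u x S).2 * θ)).re with hTT
  have hTT0 : ∀ S, 0 ≤ TT S := fun S => (hMj _ _).2.1
  have hTT1 : ∀ S, ¬ Sure p (II p (J - l * u) + b) (J - l * k) (app x S) → 1 ≤ TT S := by
    intro S hS
    refine (hMj _ _).2.2 ?_
    exact sure_of hSUR hSPR p u b J x S c hp hu hJ hc hS
  set Gc : ℤ × ℤ → ℂ := fun κ => ∑ S : Fin k → Fin l → Fin 3, ((PT eb S * O S : ℝ) : ℂ) *
    ex (κ.1 * ((zu l k u x S).1 * θ) + κ.2 * ((zu l k u x S).2 * θ)) with hGc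
  have hGt : ∀ κ : ℤ × ℤ, ‖Gc κ‖ = Gt q m g t₁ l k wm J u κ θ s₁ s₂ := by
    intro κ
    unfold Gt
    have h1 : Gf (l * k) (l * u) (pw l k) (q ^ tt q (l * k) J)
        (omv q m g t₁ wm (tt q (l * k) J)) κ (yy q (J - l * k)) θ s₁ s₂ =
        ∑ S : Fin k → Fin l → Fin 3, (PT eb S : ℂ) * ((O S : ℂ) *
          ex (θ * (κ.1 * ((VN S / 2 ^ (l * k - l * u) : ℕ) : ℝ) +
            κ.2 * ((VA S / 2 ^ (l * k - l * u) : ℕ) : ℝ)))) := by
      have h2 := sum_pw (l := l) (k := k) hV (fun n a =>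
        ((omv q m g t₁ wm (tt q (l * k) J)
          (fl (q ^ tt q (l * k) J) (((q ^ tt q (l * k) J : ℕ) : ℝ) * s₁ + yy q (J - l * k) * n))
          (fl (q ^ tt q (l * k) J) (((q ^ tt q (l * k) J : ℕ) : ℝ) * s₂ + yy q (J - l * k) * a)) :
            ℝ) : ℂ) *
          ex (θ * (κ.1 * ((n / 2 ^ (l * k - l * u) : ℕ) : ℝ) +
            κ.2 * ((a / 2 ^ (l * k - l * u) : ℕ) : ℝ))))
      unfold Gf
      have h3 : ∀ S : Fin k → Fin l → Fin 3, (PT eb S : ℂ) * ((O S : ℂ) *
          ex (θ * (κ.1 * ((VN S / 2 ^ (l * k - l * u) : ℕ) : ℝ) +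
            κ.2 * ((VA S / 2 ^ (l * k - l * u) : ℕ) : ℝ)))) =
          (PT eb S : ℂ) * (((omv q m g t₁ wm (tt q (l * k) J)
          (fl (q ^ tt q (l * k) J) (((q ^ tt q (l * k) J : ℕ) : ℝ) * s₁ +
            yy q (J - l * k) * VN S))
          (fl (q ^ tt q (l * k) J) (((q ^ tt q (l * k) J : ℕ) : ℝ) * s₂ +
            yy q (J - l * k) * VA S)) : ℝ) : ℂ) *
          ex (θ * (κ.1 * ((VN S / 2 ^ (l * k - l * u) : ℕ) : ℝ) +
            κ.2 * ((VA S / 2 ^ (l * k - l * u) : ℕ) : ℝ)))) := by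
        intro S
        rw [← hOv S]
      rw [Finset.sum_congr rfl fun S _ => h3 S, ← h2]
      refine Finset.sum_congr rfl fun n _ => Finset.sum_congr rfl fun a _ => ?_
      rw [Complex.ofReal_mul, mul_assoc]
    have h4 : Gc κ = ex (θ * (2 ^ (l * u) * (κ.1 * x.1 + κ.2 * x.2))) *
        Gf (l * k) (l * u) (pw l k) (q ^ tt q (l * k) J)
        (omv q m g t₁ wm (tt q (l * k) J)) κ (yy q (J - l * k)) θ s₁ s₂ := by
      rw [h1, Finset.mul_sum]
      simp only [hGc]
      refine Finset.sum_congr rfl fun S _ => ?_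
      have h5 : (κ.1 : ℝ) * ((zu l k u x S).1 * θ) + κ.2 * ((zu l k u x S).2 * θ) =
          θ * (2 ^ (l * u) * (κ.1 * x.1 + κ.2 * x.2)) +
          θ * (κ.1 * ((VN S / 2 ^ (l * k - l * u) : ℕ) : ℝ) +
            κ.2 * ((VA S / 2 ^ (l * k - l * u) : ℕ) : ℝ)) := by
        unfold zu
        push_cast
        ring
      rw [h5, ex_add]
      push_cast
      ring
    rw [h4, norm_mul, norm_ex, one_mul]
  have htp : ∑ S : Fin k → Fin l → Fin 3, ((PT eb S * O S : ℝ) : ℂ) *
      tp K₀ Mj ((zu l k u x S).1 * θ) ((zu l k u x S).2 * θ) = ∑ κ ∈ bx K₀, Mj κ * Gc κ := by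
    unfold tp
    simp only [hGc, Finset.mul_sum]
    rw [Finset.sum_comm]
    refine Finset.sum_congr rfl fun κ _ => Finset.sum_congr rfl fun S _ => ?_
    ring
  have hre : ∑ S : Fin k → Fin l → Fin 3, PT eb S * O S * TT S =
      (∑ κ ∈ bx K₀, Mj κ * Gc κ).re := by
    rw [← htp, Complex.re_sum]
    refine Finset.sum_congr rfl fun S _ => ?_
    rw [Complex.re_ofReal_mul]
  have hG0 : Gc 0 = ((∑ S : Fin k → Fin l → Fin 3, PT eb S * O S : ℝ) : ℂ) := by
    simp only [hGc]
    rw [Complex.ofReal_sum]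
    refine Finset.sum_congr rfl fun S _ => ?_
    have : (((0 : ℤ × ℤ).1 : ℤ) : ℝ) * ((zu l k u x S).1 * θ) +
        (((0 : ℤ × ℤ).2 : ℤ) : ℝ) * ((zu l k u x S).2 * θ) = 0 := by
      simp
    rw [this, ex_zero, mul_one]
  have hmaj : ∑ S : Fin k → Fin l → Fin 3, PT eb S * O S * TT S ≤ (Mj 0).re * (1 + Dd) +
      ∑ κ ∈ bx0 K₀, ‖Mj κ‖ * Gt q m g t₁ l k wm J u κ θ s₁ s₂ := by
    rw [hre]
    have h0 : (0 : ℤ × ℤ) ∈ bx K₀ := by
      unfold bx
      rw [Finset.mem_product, Finset.mem_Ioo, Finset.mem_Ioo]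
      have : (0 : ℤ) < K₀ := by exact_mod_cast hK₀
      refine ⟨⟨?_, ?_⟩, ⟨?_, ?_⟩⟩ <;> simp <;> omega
    have h1 : bx0 K₀ = (bx K₀).erase 0 := by
      unfold bx0
      ext κ
      rw [Finset.mem_filter, Finset.mem_erase, and_comm]
    rw [← Finset.add_sum_erase (bx K₀) _ h0, Complex.add_re, ← h1, Complex.re_sum]
    refine add_le_add ?_ ?_
    · rw [hG0, Complex.re_mul_ofReal]
      exact mul_le_mul_of_nonneg_left hmass hM0r
    · refine Finset.sum_le_sum fun κ _ => ?_
      rw [← hGt κ, ← norm_mul]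
      exact Complex.re_le_norm _
  -- the quenched correction
  have hcor : ∑ S : Fin k → Fin l → Fin 3, (if keep q l k eb om J x S then
      PF eb S * O S * (|Z (VN S) - 1| / Z (VN S)) else 0) ≤ Dd := by
    have h1 : ∀ S : Fin k → Fin l → Fin 3, (if keep q l k eb om J x S then
        PF eb S * O S * (|Z (VN S) - 1| / Z (VN S)) else 0) ≤
        (if (∀ i, typN eb (S i)) then PF eb S * O S *
          (fun e => if 1 / 2 ≤ Z e then |Z e - 1| / Z e else 0) (VN S) else 0) := by
      intro S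
      have hzz := hZZF q m g t₁ l k G Jt J wm hq hJ hJt x S
      have hPO : 0 ≤ PF eb S * O S := mul_nonneg (PF_nonneg _ _) (hO0 _)
      by_cases hk : keep q l k eb om J x S
      · rw [if_pos hk, if_pos hk.1]
        have h2 : (1 : ℝ) / 2 ≤ Z (VN S) := by
          have := hk.2
          rw [hom, hzz] at this
          exact this
        simp only
        rw [if_pos h2]
      · rw [if_neg hk]
        split
        · refine mul_nonneg hPO ?_
          simp only
          split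
          · rename_i h3
            exact div_nonneg (abs_nonneg _) (le_trans (by norm_num) h3)
          · exact le_rfl
        · exact le_rfl
    refine (Finset.sum_le_sum fun S _ => h1 S).trans ?_
    rw [hgrp (fun e => if 1 / 2 ≤ Z e then |Z e - 1| / Z e else 0), hDi]
    refine Finset.sum_le_sum fun e _ => ?_
    by_cases he : ∃ S₀ : Fin k → Fin l → Fin 3, VN S₀ = e
    · obtain ⟨S₀, hS₀⟩ := he
      have h3 := hZA S₀
      rw [hS₀] at h3
      split
      · rename_i h4
        have h5 : (0 : ℝ) < Z e := lt_of_lt_of_le (by norm_num) h4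
        have h6 : A e = Z e / 2 ^ (l * k) := by
          rw [h3]
          field_simp
        rw [h6]
        apply le_of_eq
        field_simp
      · rw [mul_zero]
        positivity
    · rw [hAe e he, zero_mul]
      positivity
  -- assembly
  have hlor := hLOR q m g t₁ l k G Jt J wm hPar hJ hJt x
  have hpt : ∀ S : Fin k → Fin l → Fin 3, (if (∀ i, typN eb (S i)) ∧
      ¬ Sure p (II p (J - l * u) + b) (J - l * k) (app x S) then
      piQ q l k eb om J x S else 0) ≤
      PT eb S * O S * TT S +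
      (if keep q l k eb om J x S then PF eb S * O S * (|Z (VN S) - 1| / Z (VN S)) else 0) +
      (if (∀ i, typN eb (S i)) ∧ ¬ keep q l k eb om J x S then
        piQ q l k eb om J x S else 0) := by
    intro S
    have hzz := hZZF q m g t₁ l k G Jt J wm hq hJ hJt x S
    have hPO : 0 ≤ PF eb S * O S := mul_nonneg (PF_nonneg _ _) (hO0 _)
    have hPTO : 0 ≤ PT eb S * O S := mul_nonneg (PT_nonneg _ _) (hO0 _)
    have hPTT : 0 ≤ PT eb S * O S * TT S := mul_nonneg hPTO (hTT0 S)
    by_cases hk : keep q l k eb om J x S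
    · have h2 : (1 : ℝ) / 2 ≤ Z (VN S) := by
        have := hk.2
        rw [hom, hzz] at this
        exact this
      have h5 : (0 : ℝ) < Z (VN S) := lt_of_lt_of_le (by norm_num) h2
      have h6 : 0 ≤ |Z (VN S) - 1| / Z (VN S) := div_nonneg (abs_nonneg _) h5.le
      have hnk : ¬ ((∀ i, typN eb (S i)) ∧ ¬ keep q l k eb om J x S) := fun h => h.2 hk
      rw [if_pos hk, if_neg hnk, add_zero]
      by_cases hS : (∀ i, typN eb (S i)) ∧
        ¬ Sure p (II p (J - l * u) + b) (J - l * k) (app x S)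
      · rw [if_pos hS]
        have h7 : piQ q l k eb om J x S = PF eb S * O S / Z (VN S) := by
          unfold piQ
          rw [if_pos hk]
          simp only [hOdef, hZ, hom]
          rw [hzz]
        rw [h7, ← PF_eq eb S hS.1]
        have h8 := hTT1 S hS.2
        have h9 : PF eb S * O S ≤ PF eb S * O S * TT S := le_mul_of_one_le_right hPO h8
        have h10 : PF eb S * O S / Z (VN S) ≤
            PF eb S * O S + PF eb S * O S * (|Z (VN S) - 1| / Z (VN S)) := by
          rw [div_le_iff₀ h5]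
          have h11 : (PF eb S * O S + PF eb S * O S * (|Z (VN S) - 1| / Z (VN S))) * Z (VN S) =
              PF eb S * O S * (Z (VN S) + |Z (VN S) - 1|) := by
            field_simp
          rw [h11]
          refine le_mul_of_one_le_right hPO ?_
          have h12 := neg_abs_le (Z (VN S) - 1)
          linarith
        linarith
      · rw [if_neg hS]
        exact add_nonneg hPTT (mul_nonneg hPO h6)
    · rw [if_neg hk, add_zero]
      by_cases hS : (∀ i, typN eb (S i)) ∧
        ¬ Sure p (II p (J - l * u) + b) (J - l * k) (app x S)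
      · rw [if_pos hS, if_pos ⟨hS.1, hk⟩]
        linarith
      · rw [if_neg hS]
        refine add_nonneg hPTT ?_
        split
        · unfold piQ
          rw [if_neg hk]
          exact PF_nonneg _ _
        · exact le_rfl
  refine (Finset.sum_le_sum fun S _ => hpt S).trans ?_
  rw [Finset.sum_add_distrib, Finset.sum_add_distrib, hlor]
  linarith

end Pool.Agent.H24.FD
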