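import Pool.Agent.H24.FD.P5

/-!
# MP_1f2761, k = 2, row WNP: a good window, base `p` levels
-/

set_option autoImplicit false

open Finset Pool.K2 Pool.FD

namespace Pool.Agent.H24.FD

namespace WNP78

lemma tm_nonneg (p w : ℕ) (hp : 2 ≤ p) : 0 ≤ tm p w := by
  unfold tm
  have h : 0 ≤ Real.logb 2 p := Real.logb_nonneg (by norm_num) (by exact_mod_cast (by omega : 1 ≤ p))
  positivity

lemma atyp_nonneg (ε : ℝ) (l : ℕ) : 0 ≤ atyp ε l := by
  classical
  unfold atyp
  refine Finset.sum_nonneg fun s _ => ?_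
  split
  · exact le_rfl
  · unfold pF
    split
    · split
      · positivity
      · exact le_rfl
    · split
      · positivity
      · exact le_rfl

lemma rhoL_nonneg (q t₁ l : ℕ) (del : ℝ) (h : 0 < del) : 0 ≤ rhoL q t₁ l del := by
  unfold rhoL
  positivity

lemma rhoG_nonneg (q l : ℕ) (d d' : ℝ) (hq : 2 ≤ q) (hd : 0 < d) (hd' : 0 < d') :
    0 ≤ rhoG q l d d' := by
  unfold rhoG
  have h0 : (1 : ℝ) ≤ q := by exact_mod_cast (by omega : 1 ≤ q)
  have h1 : (1 : ℝ) ≤ (q : ℝ) ^ l := one_le_pow₀ h0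
  have h2 : 0 ≤ Real.log ((q : ℝ) ^ l) := Real.log_nonneg h1
  have h3 : (0 : ℝ) < (q : ℝ) ^ l := by linarith
  positivity

lemma er_nonneg (q m t₁ l k T : ℕ) (ρ : ℝ) (hρ : 0 ≤ ρ) : 0 ≤ er q m t₁ l k T ρ := by
  unfold er
  have h1 : 0 ≤ s0 q m t₁ l 1100 := by
    unfold s0
    positivity
  have h2 : 0 ≤ C1 1100 := by
    unfold C1
    positivity
  have h3 := atyp_nonneg eb l
  have h4 := Real.sqrt_nonneg ρ
  have h5 : (0 : ℝ) ≤ (2 * (NI l k 1100 : ℝ)) ^ (3200 + T + 1) * s0 q m t₁ l 1100 := by positivity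
  have h6 : 0 ≤ 7 * C1 1100 * ρ := by positivity
  have h7 : 0 ≤ (3200 + (T : ℝ) + 1) * (k * atyp eb l) := by positivity
  linarith

end WNP78

open WNP78 Classical in
/-- **WNP**. -/
theorem wnp (hE : EQBStmt) (hO : ONNStmt) (hLEV : LEVBStmt) (hBCT : BCTStmt) (hTMB : TMBStmt)
    (hCOV : COVStmt) (hONL : ONLStmt) (hKLE : KLEStmt) (hCEL : CELStmt) : WNPStmt := by
  intro q m g t₁ l k T Jt p u₁ hm K₀ wm c del d d' Mj hPar hk200 hl3 hJt hp hdel hd hd' hc hK₀ hu₁
    hMj hM0i hM0r hWG hGF x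
  have hq := hPar.hq
  set om := omW q m g t₁ wm (l * k) 3200 Jt with hom
  have hom0 : ∀ J z, 0 ≤ om J z := hO q m g t₁ (l * k) 3200 Jt kk wm hq hPar.hg hPar.hmk
  obtain ⟨hcst, hmono, hlin, -, -⟩ := hE q l k eb om hPar.marg hom0
  have hzero : ∀ (n J : ℕ) (y : ℕ × ℕ), EQ q l k eb om J n (fun _ => 0) y = 0 := fun n J y =>
    hcst n J 0 y
  have hsum : ∀ (s : Finset ℕ) (n J : ℕ) (f : ℕ → ℕ × ℕ → ℝ) (y : ℕ × ℕ),
      EQ q l k eb om J n (fun z => ∑ I ∈ s, f I z) y = ∑ I ∈ s, EQ q l k eb om J n (f I) y := by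
    intro s n J f y
    induction s using Finset.induction_on with
    | empty => simp only [Finset.sum_empty]; exact hzero n J y
    | insert a s ha ih =>
      have h9 := hlin n J (f a) (fun z => ∑ I ∈ s, f I z) 1 y
      simp only [one_mul] at h9
      rw [Finset.sum_insert ha, ← ih, ← h9]
      have h10 : (fun z => ∑ I ∈ insert a s, f I z) = fun z => f a z + ∑ I ∈ s, f I z := by
        funext z
        rw [Finset.sum_insert ha]
      rw [h10]
  have hadd : ∀ (n J : ℕ) (cc : ℝ) (f : ℕ × ℕ → ℝ) (y : ℕ × ℕ),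
      EQ q l k eb om J n (fun z => cc + f z) y = cc + EQ q l k eb om J n f y := by
    intro n J cc f y
    have h9 := hlin n J (fun _ => cc) f 1 y
    simp only [one_mul] at h9
    rw [h9, hcst]
  set ρ : ℝ := rhoL q t₁ l del + (2 * (K₀ : ℝ)) ^ 2 * rhoG q l d d' with hρ
  set M : ℝ := (Mj 0).re * (1 + del) + 3 * d' * ∑ κ ∈ bx0 K₀, ‖Mj κ‖ + 2 * del with hM
  have hρ0 : 0 ≤ ρ := by
    have h1 := rhoL_nonneg q t₁ l del hdel
    have h2 := rhoG_nonneg q l d d' hq hd hd'
    rw [hρ]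
    positivity
  have her := er_nonneg q m t₁ l k T ρ hρ0
  have hM0 : 0 ≤ M := by
    have h1 : 0 ≤ ∑ κ ∈ bx0 K₀, ‖Mj κ‖ := Finset.sum_nonneg fun κ _ => norm_nonneg _
    rw [hM]
    positivity
  have hlev := hLEV q l k (3200 + T) Jt p om (by omega) hPar.marg hom0 hJt x
  refine hlev.trans ?_
  rw [Finset.sum_range_add]
  -- levels: bits
  have hmul : ∀ b, b < 3200 + T → l * k * (b + 1) ≤ Jt := fun b hb =>
    (Nat.mul_le_mul_left _ (by omega : b + 1 ≤ 3200 + T)).trans hJt
  have hsub : ∀ b, b < 3200 + T → l * k ≤ Jt - l * k * b ∧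
      Jt - l * k * (b + 1) = (Jt - l * k * b) - l * k := by
    intro b hb
    have h1 := hmul b hb
    rw [Nat.mul_succ] at h1 ⊢
    omega
  refine add_le_add ?_ ?_
  · -- the gap
    have h1 : ∀ b ∈ range 3200, EQ q l k eb om Jt b (fun x' => EQ q l k eb om (Jt - l * k * b) 1
        (fun y => (bad p (l * k) (Jt - l * k * (b + 1)) y : ℝ)) x') x ≤ tm p (l * k) := by
      intro b hb
      have hb' : b < 3200 + T := by
        have := Finset.mem_range.1 hb
        omega
      obtain ⟨h2, h3⟩ := hsub b hb'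
      have h4 : ∀ y : ℕ × ℕ, (bad p (l * k) (Jt - l * k * (b + 1)) y : ℝ) ≤ tm p (l * k) := by
        intro y
        have h5 := hBCT p (l * k) (Jt - l * k * (b + 1)) y (by omega)
        have h6 : Jt - l * k * (b + 1) + l * k = Jt - l * k * b := by omega
        rw [h6] at h5
        exact h5.trans (hTMB p (l * k) (Jt - l * k * b) (by omega) h2).1
      have h7 : ∀ x' : ℕ × ℕ, EQ q l k eb om (Jt - l * k * b) 1
          (fun y => (bad p (l * k) (Jt - l * k * (b + 1)) y : ℝ)) x' ≤ tm p (l * k) := by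
        intro x'
        have h8 := hmono 1 (Jt - l * k * b) _ (fun _ => tm p (l * k)) x' h4
        rwa [hcst] at h8
      have h9 := hmono b Jt _ (fun _ => tm p (l * k)) x h7
      rwa [hcst] at h9
    refine (Finset.sum_le_sum h1).trans ?_
    rw [Finset.sum_const, Finset.card_range, nsmul_eq_mul]
    norm_num
  · -- the structured blocks
    have h1 : ∀ i ∈ range T, EQ q l k eb om Jt (3200 + i) (fun x' =>
        EQ q l k eb om (Jt - l * k * (3200 + i)) 1
        (fun y => (bad p (l * k) (Jt - l * k * (3200 + i + 1)) y : ℝ)) x') x ≤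
        hm + tm p (l * u₁) + tm p (l * k) * (M + er q m t₁ l k T ρ) := by
      intro i hi
      set b := 3200 + i with hb
      have hb1 : 3200 ≤ b := by omega
      have hb' : b < 3200 + T := by
        have := Finset.mem_range.1 hi
        omega
      obtain ⟨h2, h3⟩ := hsub b hb'
      set J := Jt - l * k * b with hJ
      rw [h3]
      have hJG : J + 3200 * (l * k) ≤ Jt := by
        have h4 : l * k * 3200 ≤ l * k * b := Nat.mul_le_mul_left _ hb1
        have h5 := hmul b hb'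
        rw [Nat.mul_succ] at h5
        have h6 : 3200 * (l * k) = l * k * 3200 := Nat.mul_comm _ _
        omega
      obtain ⟨hcard, hcov⟩ := hCOV p l k u₁ hm J (by omega) hl3 hu₁ h2
      have h4 : ∀ x' : ℕ × ℕ, EQ q l k eb om J 1 (fun y => (bad p (l * k) (J - l * k) y : ℝ)) x' ≤
          (hm + tm p (l * u₁)) + ∑ I ∈ Cv p l k u₁ hm J,
            EQ q l k eb om J 1 (fun y => if Sure p I (J - l * k) y then (0 : ℝ) else 1) x' := by
        intro x'
        have h5 := hmono 1 J _ _ x' hcov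
        rw [hadd, hsum] at h5
        exact h5
      have h5 := hmono b Jt _ _ x h4
      rw [hadd, hsum] at h5
      have h6 : ∀ I ∈ Cv p l k u₁ hm J, EQ q l k eb om Jt b (fun x' => EQ q l k eb om J 1
          (fun y => if Sure p I (J - l * k) y then (0 : ℝ) else 1) x') x ≤
          M + er q m t₁ l k T ρ := by
        intro I hI
        unfold Cv at hI
        rw [Finset.mem_filter] at hI
        obtain ⟨-, -, -, u, hu, b', hb'2, hIe⟩ := hI
        obtain ⟨hGFb, hGGb⟩ := hGF b hb1 hb'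
        obtain ⟨B, hB1, hB2, hB3⟩ := hONL q m g t₁ l k 3200 Jt J p u₁ hm u b' K₀ wm c del d d' Mj
          hPar hl3 h2 hJG hp hdel hd hd' hc hK₀ hMj hM0i hM0r hGFb hGGb hu hb'2
        obtain ⟨hK1, hK4⟩ := hKLE q l k J hq hPar.hq5 hl3 hk200 h2
        have h7 := hCEL q m g t₁ l k T Jt wm hPar hk200 hJt hWG b hb1 hb'
          (q ^ tt q (l * k) J * 2 ^ l) hK1 hK4 B hB1 ρ hB2
          (fun x' => EQ q l k eb om J 1
            (fun y => if Sure p I (J - l * k) y then (0 : ℝ) else 1) x') M ?_ x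
        · exact h7
        · intro y
          have h8 := hB3 y
          rw [← hIe] at h8
          exact h8
      have h7 := Finset.sum_le_sum h6
      rw [Finset.sum_const, nsmul_eq_mul] at h7
      have h8 : ((Cv p l k u₁ hm J).card : ℝ) * (M + er q m t₁ l k T ρ) ≤
          tm p (l * k) * (M + er q m t₁ l k T ρ) :=
        mul_le_mul_of_nonneg_right hcard (by linarith)
      linarith
    refine (Finset.sum_le_sum h1).trans ?_
    rw [Finset.sum_const, Finset.card_range, nsmul_eq_mul]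

end Pool.Agent.H24.FD
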